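import Pool.Agent.helper96.PP2.SpecC

/-!
# Row UPI: powers, image and injectivity
-/

set_option autoImplicit false

namespace Pool.Agent.PP2

open Topology Matrix

private theorem UPI_nat {R : Type} [CommRing R] (V : AddSubgroup (M2 R)) (p : ℕ) (W : M2 R)
    (hW : W ∈ V) : (p : R) • W ∈ V := by
  rw [Nat.cast_smul_eq_nsmul]
  exact V.nsmul_mem hW p

private theorem UPI_tors {R : Type} [CommRing R] (V : AddSubgroup (M2 R)) (p : ℕ)
    (h : ∀ W ∈ V, (p : R) • W = 0 → W = 0) (k : ℕ) :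
    ∀ W ∈ V, ((p : R) ^ k) • W = 0 → W = 0 := by
  induction k with
  | zero => intro W _ h0; simpa using h0
  | succ k ih =>
    intro W hW h0
    apply h W hW
    apply ih _ (UPI_nat V p W hW)
    rw [smul_smul, ← pow_succ]
    exact h0

private theorem UPI_mem {R : Type} [CommRing R] (c : R) (V : AddSubgroup (M2 R)) (W : M2 R) :
    W ∈ sN c V ↔ ∃ X ∈ V, c • X = W := by
  unfold sN
  rw [AddSubgroup.mem_map]
  rfl

private theorem UPI_TH_one {R : Type} [CommRing R] [Invertible (2 : R)] :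
    TH (1 : GL (Fin 2) R) = 0 := by
  have e : TH (1 : GL (Fin 2) R) = Th ((1 : GL (Fin 2) R) : M2 R) := rfl
  rw [e, Units.val_one, Lib_Th_one]

private theorem UPI_comm {R : Type} [CommRing R] (a b e : R) (X : M2 R) :
    (a • (1 : M2 R) + X) * (b • (1 : M2 R) + e • X)
      = (b • (1 : M2 R) + e • X) * (a • (1 : M2 R) + X) := by
  simp only [add_mul, mul_add, Matrix.smul_mul, Matrix.mul_smul, one_mul, mul_one, smul_smul]
  rw [mul_comm a b, mul_comm a e]
  abel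

/-- **UPI** -/
theorem UPI_row (hSQU : SQU_stmt) (hEXI : EXI_stmt) (hSUB : SUB_stmt) (hPMV : PMV_stmt)
    (hPWT : PWT_stmt) : UPI_stmt := by
  intro p R _ _ _ _ _ _ J hp hp2 S V hV tors m hm
  have hmem : ∀ n : ℕ, ∀ g : GL (Fin 2) R, g ∈ ES J (sN ((p : R) ^ n) V) ↔
      g ∈ Sg J ∧ TH g ∈ sN ((p : R) ^ n) V := fun n =>
    ((hSUB p R J hp hp2 S).2 _ (hPMV p R J hp hp2 S V hV n n le_rfl).1).1
  have hin : ∀ t : R, (∀ W ∈ V, t • W ∈ V) → ∀ W ∈ V, (1 + (p : R) * t) • W ∈ V := by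
    intro t ht W hW
    rw [add_smul, one_smul, mul_smul]
    exact V.add_mem hW (UPI_nat V p _ (ht W hW))
  have hunit : ∀ t : R, ∃ y : R, (1 + y) * (1 + (p : R) * t) = 1 := by
    intro t
    obtain ⟨y, _, hy, _⟩ := (hSQU p R J hp hp2 S).1 ((p : R) * t) (J.mul_mem_right t S.pmem)
    exact ⟨y, by rw [mul_comm]; exact hy⟩
  refine ⟨?_, ?_⟩
  · intro g hg
    obtain ⟨hg1, hg2⟩ := (hmem m g).1 hg
    obtain ⟨X', hX', hX⟩ := (UPI_mem _ _ _).1 hg2
    obtain ⟨t, ht, he⟩ := hPWT p R J hp hp2 S V hV m hm g hg1 X' hX' hX.symm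
    refine (hmem (m + 1) _).2 ⟨(Sg J).pow_mem hg1 p, (UPI_mem _ _ _).2 ?_⟩
    exact ⟨(1 + (p : R) * t) • X', hin t ht X' hX', by rw [he, smul_smul]⟩
  · intro g hg h hh hgh
    obtain ⟨hg1, hg2⟩ := (hmem m g).1 hg
    obtain ⟨hh1, hh2⟩ := (hmem m h).1 hh
    obtain ⟨X', hX', hX⟩ := (UPI_mem _ _ _).1 hg2
    obtain ⟨Y', hY', hY⟩ := (UPI_mem _ _ _).1 hh2
    obtain ⟨t, ht, he⟩ := hPWT p R J hp hp2 S V hV m hm g hg1 X' hX' hX.symm
    obtain ⟨t', ht', he'⟩ := hPWT p R J hp hp2 S V hV m hm h hh1 Y' hY' hY.symm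
    -- equality up to units
    have e1 : (1 + (p : R) * t) • X' - (1 + (p : R) * t') • Y' = 0 := by
      apply UPI_tors V p tors (m + 1) _ (V.sub_mem (hin t ht X' hX') (hin t' ht' Y' hY'))
      rw [smul_sub, smul_smul, smul_smul, ← he, ← he', hgh, sub_self]
    obtain ⟨y, hy⟩ := hunit t'
    have e2 : Y' = ((1 + y) * (1 + (p : R) * t)) • X' := by
      have : (1 + y) • ((1 + (p : R) * t') • Y') = (1 + y) • ((1 + (p : R) * t) • X') := by
        rw [sub_eq_zero.1 e1]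
      rw [smul_smul, smul_smul, hy, one_smul] at this
      exact this
    -- commutation
    have e3 : TH h = ((1 + y) * (1 + (p : R) * t)) • TH g := by
      rw [← hX, ← hY, e2, smul_smul, smul_smul, mul_comm]
    have hc : Commute g h := by
      apply Units.ext
      rw [Units.val_mul, Units.val_mul, Lib_decomp g, Lib_decomp h, e3]
      exact UPI_comm _ _ _ _
    have hk1 : (g⁻¹ * h) ^ p = 1 := by
      rw [(hc.inv_left).mul_pow, inv_pow, hgh, inv_mul_cancel]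
    have hk : g⁻¹ * h ∈ ES J (sN ((p : R) ^ m) V) := Subgroup.mul_mem _ (Subgroup.inv_mem _ hg) hh
    obtain ⟨hk2, hk3⟩ := (hmem m _).1 hk
    obtain ⟨W', hW', hW⟩ := (UPI_mem _ _ _).1 hk3
    obtain ⟨t'', ht'', he''⟩ := hPWT p R J hp hp2 S V hV m hm (g⁻¹ * h) hk2 W' hW' hW.symm
    rw [hk1, UPI_TH_one, mul_smul] at he''
    have e4 : (1 + (p : R) * t'') • W' = 0 :=
      UPI_tors V p tors (m + 1) _ (hin t'' ht'' W' hW') he''.symm
    obtain ⟨y'', hy''⟩ := hunit t''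
    have e5 : W' = 0 := by
      have := congrArg (fun M : M2 R => (1 + y'') • M) e4
      simp only [smul_smul, smul_zero] at this
      rwa [hy'', one_smul] at this
    have e6 : TH (g⁻¹ * h) = TH (1 : GL (Fin 2) R) := by
      rw [UPI_TH_one, ← hW, e5, smul_zero]
    have e7 : g⁻¹ * h = 1 := (hEXI p R J hp hp2 S).2 _ hk2 _ (Subgroup.one_mem _) e6
    exact (inv_mul_eq_one.1 e7)

end Pool.Agent.PP2
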